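import Mathlib
import Pool.Agent.Helper67.SQ4.Defs5

/-!
# SQ5, block FINq, part A: inequalities between real numbers
-/

set_option autoImplicit false

namespace Pool.Agent.SQ.FinQ

open Finset

theorem Eq_nonneg {n : ℕ} {θ : ℝ} (h0 : 0 ≤ θ) (h1 : θ ≤ 1) : 0 ≤ Eq n θ := by
  unfold Eq
  apply div_nonneg _ (by positivity)
  rw [sub_nonneg]
  exact pow_le_one₀ (by linarith) (by linarith)

theorem Eq_le_inv {n : ℕ} {θ : ℝ} (h1 : θ ≤ 1) : Eq n θ ≤ 1 / (n + 1) := by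
  unfold Eq
  apply div_le_div_of_nonneg_right _ (by positivity)
  have : 0 ≤ (1 - θ) ^ (n + 1) := pow_nonneg (by linarith) _
  linarith

theorem Eq_le {n : ℕ} {θ : ℝ} (h0 : 0 ≤ θ) (h1 : θ ≤ 1) : Eq n θ ≤ θ := by
  unfold Eq
  rw [div_le_iff₀ (by positivity)]
  have h := one_add_mul_le_pow (a := -θ) (by linarith) (n + 1)
  have h2 : (1 + -θ) ^ (n + 1) = (1 - θ) ^ (n + 1) := by ring_nf
  rw [h2] at h
  push_cast at h
  linarith

theorem Eq_one {n : ℕ} : Eq n 1 = 1 / (n + 1) := by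
  unfold Eq
  simp

/-- `T t ≥ ∑ α t l * γ (J l) - Cb`, with `γ` almost non-negative and small off `J`. -/
theorem abs_lin {n q R : ℕ} (γ : Fin q → ℝ) (J : Fin (n + 1) → Fin q) (hJ : Function.Injective J) (m : ℕ)
    (α : Fin R → Fin (n + 1) → ℕ) (hα : ∀ t, ∑ l, α t l ≤ m) (T : Fin R → ℝ) {C0 C1 Cb ε K H D : ℝ}
    (hC0 : 0 ≤ C0) (hC1 : 0 ≤ C1) (hD : 0 ≤ D) (hε : 0 ≤ ε) (hγ0 : ∀ i, -C0 ≤ γ i) (hγ1 : ∀ i, i ∉ Set.range J → γ i ≤ C1)
    (hT : ∀ t, ∑ l, α t l * γ (J l) - Cb ≤ T t) (hγK : ∀ i, γ i ≤ K * H) (hKH : 0 ≤ K * H)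
    (hα' : ∀ l, (1 - ε) * (m * (1 / (n + 1))) * D ≤ ∑ t, (α t l : ℝ)) :
    (m * D / (n + 1)) * ∑ i, γ i - ε * (m * D) * (K * H) - (m * D / (n + 1) * (q * C1) + R * (C0 * m + Cb)) ≤ ∑ t, T t := by
  set P : Fin (n + 1) → ℝ := fun l => max 0 (γ (J l)) with hP
  have hP0 : ∀ l, 0 ≤ P l := fun l => le_max_left _ _
  have hPγ : ∀ l, P l - C0 ≤ γ (J l) := by
    intro l
    simp only [hP]
    rcases max_cases 0 (γ (J l)) with ⟨h, _⟩ | ⟨h, _⟩ <;> rw [h]
    · linarith [hγ0 (J l)]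
    · linarith
  have hPK : ∀ l, P l ≤ K * H := fun l => max_le hKH (hγK _)
  have h1 : ∀ t, ∑ l, α t l * P l - (C0 * m + Cb) ≤ T t := by
    intro t
    refine le_trans ?_ (hT t)
    have h2 : ∑ l, (α t l : ℝ) * (P l - C0) ≤ ∑ l, α t l * γ (J l) :=
      sum_le_sum fun l _ => mul_le_mul_of_nonneg_left (hPγ l) (Nat.cast_nonneg _)
    have h3 : ∑ l, (α t l : ℝ) * (P l - C0) = ∑ l, α t l * P l - C0 * ∑ l, (α t l : ℝ) := by
      rw [mul_sum, ← sum_sub_distrib]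
      exact sum_congr rfl fun l _ => by ring
    have h4 : C0 * ∑ l, (α t l : ℝ) ≤ C0 * m := by
      apply mul_le_mul_of_nonneg_left _ hC0
      exact_mod_cast hα t
    linarith
  have h2 : ∑ t, (∑ l, α t l * P l - (C0 * m + Cb)) ≤ ∑ t, T t := sum_le_sum fun t _ => h1 t
  rw [sum_sub_distrib, sum_comm, sum_const, card_univ, Fintype.card_fin, nsmul_eq_mul] at h2
  have h3 : ∑ l, (1 - ε) * (m * (1 / (n + 1))) * D * P l ≤ ∑ l, ∑ t, (α t l : ℝ) * P l := by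
    apply sum_le_sum
    intro l _
    rw [← sum_mul]
    exact mul_le_mul_of_nonneg_right (hα' l) (hP0 l)
  rw [← mul_sum] at h3
  have h4 : ∑ i, γ i ≤ ∑ l, P l + q * C1 := by
    classical
    have e1 : ∑ i, γ i = ∑ i ∈ univ.image J, γ i + ∑ i ∈ (univ.image J)ᶜ, γ i := (sum_add_sum_compl _ _).symm
    rw [e1]
    apply add_le_add
    · rw [sum_image (fun a _ b _ h => hJ h)]
      exact sum_le_sum fun l _ => le_max_right _ _
    · have h5 : ∑ i ∈ (univ.image J)ᶜ, γ i ≤ ∑ i ∈ (univ.image J)ᶜ, C1 := by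
        apply sum_le_sum
        intro i hi
        apply hγ1
        rintro ⟨l, rfl⟩
        simp at hi
      refine h5.trans ?_
      rw [sum_const, nsmul_eq_mul]
      apply mul_le_mul_of_nonneg_right _ hC1
      have := card_le_univ ((univ.image J)ᶜ)
      rw [Fintype.card_fin] at this
      exact_mod_cast this
  have h5 : ∑ l, P l ≤ (n + 1) * (K * H) := by
    refine (sum_le_sum fun l _ => hPK l).trans ?_
    rw [sum_const, card_univ, Fintype.card_fin, nsmul_eq_mul]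
    push_cast
    exact le_rfl
  have hmD : 0 ≤ m * D / (n + 1) := by positivity
  have h6 := mul_le_mul_of_nonneg_left h4 hmD
  have h7 := mul_le_mul_of_nonneg_left h5 (mul_nonneg hε hmD)
  have e2 : (1 - ε) * (m * (1 / (n + 1))) * D * ∑ l, P l = (m * D / (n + 1)) * ∑ l, P l - ε * (m * D / (n + 1)) * ∑ l, P l := by
    ring
  have e3 : ε * (m * D / (n + 1)) * ((n + 1) * (K * H)) = ε * (m * D) * (K * H) := by
    field_simp
  rw [e2] at h3
  rw [e3] at h7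
  rw [mul_add] at h6
  linarith

/-- the same with `min (B H) (T t)` -/
theorem abs_min {n q R : ℕ} (γ : Fin q → ℝ) (J : Fin (n + 1) → Fin q) (hJ : Function.Injective J) (m : ℕ)
    (α : Fin R → Fin (n + 1) → ℕ) (hα : ∀ t, ∑ l, α t l ≤ m) (T : Fin R → ℝ) {C0 C1 Cb ε K H D θ E ρ L η : ℝ}
    (hC0 : 0 ≤ C0) (hC1 : 0 ≤ C1) (hD : 0 ≤ D) (hε : 0 ≤ ε) (hγ0 : ∀ i, -C0 ≤ γ i) (hγ1 : ∀ i, i ∉ Set.range J → γ i ≤ C1)
    (hT : ∀ t, ∑ l, α t l * γ (J l) - Cb ≤ T t) (hγK : ∀ i, γ i ≤ K * H) (hKH : 0 ≤ K * H)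
    (hθ : 0 ≤ θ) (hθ1 : θ ≤ 1) (hE : 0 ≤ E) (hE1 : E ≤ 1) (hρ : 0 ≤ ρ) (hρ1 : ρ ≤ 1) (hCb : 0 ≤ Cb)
    (hL : |∑ l, max 0 (γ (J l)) - L * H| ≤ η * H)
    (hα' : ∀ l, (1 - ε) * (m * E) * D ≤ ∑ t, min (θ * m) (α t l : ℝ)) :
    m * D * ((E - ρ * θ) * ∑ i, γ i) - (ε * (m * D) * ((n + 1) * (K * H)) + (R * m + m * D) * (η * H)) -
      (m * D * ((q + n + 1) * (C0 + C1)) + R * (C0 * m + Cb)) ≤
      ∑ t, min (m * θ * L * H) (T t) - ρ * (m * θ * L * H) * D := by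
  set P : Fin (n + 1) → ℝ := fun l => max 0 (γ (J l)) with hP
  have hP0 : ∀ l, 0 ≤ P l := fun l => le_max_left _ _
  have hPγ : ∀ l, P l - C0 ≤ γ (J l) := by
    intro l
    simp only [hP]
    rcases max_cases 0 (γ (J l)) with ⟨h, _⟩ | ⟨h, _⟩ <;> rw [h]
    · linarith [hγ0 (J l)]
    · linarith
  have hPK : ∀ l, P l ≤ K * H := fun l => max_le hKH (hγK _)
  have hm : (0 : ℝ) ≤ m := Nat.cast_nonneg _
  have hηH : 0 ≤ η * H := (abs_nonneg _).trans hL
  have hL1 : ∑ l, P l - η * H ≤ L * H := by linarith [(abs_le.1 hL).2]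
  have hL2 : L * H ≤ ∑ l, P l + η * H := by linarith [(abs_le.1 hL).1]
  have h1 : ∀ t, ∑ l, α t l * P l - (C0 * m + Cb) ≤ T t := by
    intro t
    refine le_trans ?_ (hT t)
    have h2 : ∑ l, (α t l : ℝ) * (P l - C0) ≤ ∑ l, α t l * γ (J l) :=
      sum_le_sum fun l _ => mul_le_mul_of_nonneg_left (hPγ l) (Nat.cast_nonneg _)
    have h3 : ∑ l, (α t l : ℝ) * (P l - C0) = ∑ l, α t l * P l - C0 * ∑ l, (α t l : ℝ) := by
      rw [mul_sum, ← sum_sub_distrib]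
      exact sum_congr rfl fun l _ => by ring
    have h4 : C0 * ∑ l, (α t l : ℝ) ≤ C0 * m := by
      apply mul_le_mul_of_nonneg_left _ hC0
      exact_mod_cast hα t
    linarith
  have hCt : 0 ≤ C0 * m + Cb := by positivity
  have h2 : ∀ t, ∑ l, min (θ * m) (α t l : ℝ) * P l - m * (η * H) - (C0 * m + Cb) ≤ min (m * θ * L * H) (T t) := by
    intro t
    apply le_min
    · have h3 : ∑ l, min (θ * m) (α t l : ℝ) * P l ≤ θ * m * ∑ l, P l := by
        rw [mul_sum]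
        exact sum_le_sum fun l _ => mul_le_mul_of_nonneg_right (min_le_left _ _) (hP0 l)
      have h4 : θ * m * (∑ l, P l - η * H) ≤ θ * m * (L * H) := mul_le_mul_of_nonneg_left hL1 (by positivity)
      have h5 : θ * (m * (η * H)) ≤ 1 * (m * (η * H)) := mul_le_mul_of_nonneg_right hθ1 (by positivity)
      have h6 : m * θ * L * H = θ * m * (L * H) := by ring
      rw [h6]
      nlinarith
    · have h3 : ∑ l, min (θ * m) (α t l : ℝ) * P l ≤ ∑ l, α t l * P l :=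
        sum_le_sum fun l _ => mul_le_mul_of_nonneg_right (min_le_right _ _) (hP0 l)
      have := h1 t
      have : 0 ≤ m * (η * H) := by positivity
      linarith
  have h3 : ∑ t, (∑ l, min (θ * m) (α t l : ℝ) * P l - m * (η * H) - (C0 * m + Cb)) ≤ ∑ t, min (m * θ * L * H) (T t) :=
    sum_le_sum fun t _ => h2 t
  rw [sum_sub_distrib, sum_sub_distrib, sum_comm, sum_const, sum_const, card_univ, Fintype.card_fin, nsmul_eq_mul,
    nsmul_eq_mul] at h3
  have h4 : ∑ l, (1 - ε) * (m * E) * D * P l ≤ ∑ l, ∑ t, min (θ * m) (α t l : ℝ) * P l := by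
    apply sum_le_sum
    intro l _
    rw [← sum_mul]
    exact mul_le_mul_of_nonneg_right (hα' l) (hP0 l)
  rw [← mul_sum] at h4
  have h5 : ∑ l, P l ≤ (n + 1) * (K * H) := by
    refine (sum_le_sum fun l _ => hPK l).trans ?_
    rw [sum_const, card_univ, Fintype.card_fin, nsmul_eq_mul]
    push_cast
    exact le_rfl
  -- `∑ P` and `∑ γ`
  have h6 : |∑ l, P l - ∑ i, γ i| ≤ (q + n + 1) * (C0 + C1) := by
    classical
    have e1 : ∑ i, γ i = ∑ l, γ (J l) + ∑ i ∈ (univ.image J)ᶜ, γ i := by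
      rw [← sum_add_sum_compl (univ.image J) γ, sum_image (fun a _ b _ h => hJ h)]
    have hc : ((univ.image J)ᶜ.card : ℝ) ≤ q := by
      have := card_le_univ ((univ.image J)ᶜ)
      rw [Fintype.card_fin] at this
      exact_mod_cast this
    have h7 : ∑ i ∈ (univ.image J)ᶜ, γ i ≤ q * C1 := by
      have h5 : ∑ i ∈ (univ.image J)ᶜ, γ i ≤ ∑ i ∈ (univ.image J)ᶜ, C1 := by
        apply sum_le_sum
        intro i hi
        apply hγ1
        rintro ⟨l, rfl⟩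
        simp at hi
      refine h5.trans ?_
      rw [sum_const, nsmul_eq_mul]
      exact mul_le_mul_of_nonneg_right hc hC1
    have h8 : -(q * C0) ≤ ∑ i ∈ (univ.image J)ᶜ, γ i := by
      have h5 : ∑ i ∈ (univ.image J)ᶜ, (-C0) ≤ ∑ i ∈ (univ.image J)ᶜ, γ i := sum_le_sum fun i _ => hγ0 i
      refine le_trans ?_ h5
      rw [sum_const, nsmul_eq_mul]
      nlinarith
    have h9 : ∑ l, γ (J l) ≤ ∑ l, P l := sum_le_sum fun l _ => le_max_right _ _
    have h10 : ∑ l, P l - (n + 1) * C0 ≤ ∑ l, γ (J l) := by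
      have h5 : ∑ l, (P l - C0) ≤ ∑ l, γ (J l) := sum_le_sum fun l _ => hPγ l
      rw [sum_sub_distrib, sum_const, card_univ, Fintype.card_fin, nsmul_eq_mul] at h5
      push_cast at h5
      exact h5
    have hq : (0 : ℝ) ≤ q := Nat.cast_nonneg _
    have hn : (0 : ℝ) ≤ n := Nat.cast_nonneg _
    rw [e1, abs_le]
    constructor
    · nlinarith [mul_nonneg hn hC0, mul_nonneg hn hC1, mul_nonneg hq hC0, mul_nonneg hq hC1]
    · nlinarith [mul_nonneg hn hC0, mul_nonneg hn hC1, mul_nonneg hq hC0, mul_nonneg hq hC1]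
  have hmD : 0 ≤ m * D := by positivity
  have h7 : (E - ρ * θ) * ∑ i, γ i - (q + n + 1) * (C0 + C1) ≤ (E - ρ * θ) * ∑ l, P l := by
    have hρθ : ρ * θ ≤ 1 := mul_le_one₀ hρ1 hθ hθ1
    have hρθ0 : 0 ≤ ρ * θ := mul_nonneg hρ hθ
    have h8 : |E - ρ * θ| ≤ 1 := by rw [abs_le]; constructor <;> linarith
    have h9 : |(E - ρ * θ) * (∑ l, P l - ∑ i, γ i)| ≤ 1 * ((q + n + 1) * (C0 + C1)) := by
      rw [abs_mul]
      exact mul_le_mul h8 h6 (abs_nonneg _) (by norm_num)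
    have h10 := (abs_le.1 h9).1
    linarith
  have h8 := mul_le_mul_of_nonneg_left h7 hmD
  have h9 : ρ * (m * θ * L * H) * D ≤ m * D * (ρ * θ * ∑ l, P l) + m * D * (η * H) := by
    have h10 : ρ * θ * (m * D) * (L * H) ≤ ρ * θ * (m * D) * (∑ l, P l + η * H) :=
      mul_le_mul_of_nonneg_left hL2 (by positivity)
    have h11 : ρ * θ * (m * D * (η * H)) ≤ 1 * (m * D * (η * H)) :=
      mul_le_mul_of_nonneg_right (mul_le_one₀ hρ1 hθ hθ1) (by positivity)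
    have e : ρ * (m * θ * L * H) * D = ρ * θ * (m * D) * (L * H) := by ring
    rw [e]
    nlinarith
  have h10 : ε * (m * D) * (E * ∑ l, P l) ≤ ε * (m * D) * ((n + 1) * (K * H)) := by
    apply mul_le_mul_of_nonneg_left _ (by positivity)
    have hP' : 0 ≤ ∑ l, P l := sum_nonneg fun l _ => hP0 l
    nlinarith
  have e2 : (1 - ε) * (m * E) * D * ∑ l, P l = m * D * (E * ∑ l, P l) - ε * (m * D) * (E * ∑ l, P l) := by ring
  rw [e2] at h4
  have e3 : m * D * ((E - ρ * θ) * ∑ l, P l) = m * D * (E * ∑ l, P l) - m * D * (ρ * θ * ∑ l, P l) := by ring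
  rw [e3] at h8
  have e4 : (R * m + m * D) * (η * H) = R * (m * (η * H)) + m * D * (η * H) := by ring
  rw [e4]
  rw [mul_sub] at h8
  linarith

end Pool.Agent.SQ.FinQ
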