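import Pool.Agent.Helper67.SQ4.Defs5
import Pool.Agent.Helper42.SQ.LVg
import Pool.Agent.Helper42.SQ.NULA

/-!
# SQ5, block FINq, part B: the local values `gam`
-/

set_option autoImplicit false

namespace Pool.Agent.SQ

open NumberField Filter Module MvPolynomial
open Pool.Agent.Helper64.Vojta (Pl nv sn above)
open Pool.Agent.V2
open Pool.Agent.Chart (fld dg crd hgt)

universe u

/-- the local value of the section `f` of degree `d` at the absolute value `M v ∘ g` -/
noncomputable def gam {k : Type u} [Field k] [NumberField k] {L : Type u} [Field L] [Algebra k L] {G : Type*} [Group G]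
    (s : G →* (L ≃ₐ[k] L)) (M : Pl k → L → ℝ) {N : ℕ} (y : Fin (N + 1) → L) (d : ℕ) (f : MvPolynomial (Fin (N + 1)) k)
    (v : Pl k) (g : G) : ℝ :=
  d * Real.log (mxn (M v) fun j => s g (y j)) - Real.log (M v (s g (aeval y f)))

theorem aeval_s63 {k : Type u} [Field k] {L : Type u} [Field L] [Algebra k L] (t : L ≃ₐ[k] L) {N : ℕ}
    (y : Fin N → L) (f : MvPolynomial (Fin N) k) : t (aeval y f) = aeval (fun j => t (y j)) f := by
  rw [aeval_def, aeval_def, eval₂_eq', eval₂_eq', map_sum]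
  refine Finset.sum_congr rfl fun m _ => ?_
  rw [map_mul, AlgEquiv.commutes, map_prod]
  simp only [map_pow]

section

variable {k : Type u} [Field k] [NumberField k] {G : Type*} [Group G] [Fintype G]

variable (G) in
/-- the local values are bounded below -/
theorem gam_ge {N d : ℕ} (f : MvPolynomial (Fin (N + 1)) k) (hf : f.IsHomogeneous d) (S : Finset (Pl k)) :
    ∃ C : ℝ, 0 ≤ C ∧ ∀ (L : Type u) [Field L] [Algebra k L] (s : G →* (L ≃ₐ[k] L)) (M : Pl k → L → ℝ), QSG s M →
      ∀ (y : Fin (N + 1) → L), aeval y f ≠ 0 → ∀ v ∈ S, ∀ g, -C ≤ gam s M y d f v g := by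
  obtain ⟨C, -, hC0, hle⟩ := ev_le G f hf
  refine ⟨∑ v ∈ S, C v, Finset.sum_nonneg fun v _ => hC0 v, ?_⟩
  intro L _ _ s M h y hz v hv g
  have h1 := hle L s M h (fun j => s g (y j)) v (by rw [← aeval_s63]; simpa using hz)
  rw [← aeval_s63] at h1
  have h2 : C v ≤ ∑ v ∈ S, C v := Finset.single_le_sum (f := C) (fun v _ => hC0 v) hv
  unfold gam
  linarith

variable (G) in
/-- the inequality of Liouville -/
theorem gam_sum {N d : ℕ} (f : MvPolynomial (Fin (N + 1)) k) (hf : f.IsHomogeneous d) (S : Finset (Pl k)) :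
    ∃ C : ℝ, ∀ (L : Type u) [Field L] [Algebra k L] (s : G →* (L ≃ₐ[k] L)) (M : Pl k → L → ℝ), QSG s M →
      ∀ (y : Fin (N + 1) → L), (∃ j, y j = 1) → aeval y f ≠ 0 →
        ∑ v ∈ S, ∑ g, gam s M y d f v g ≤ d * Hg s M y + C := liouville_g G f hf S

variable (G) in
/-- one of `n + 1` forms without common zero is large -/
theorem gam_nul {N n d : ℕ} (I : Ideal (MvPolynomial (Fin (N + 1)) k)) (hI : ∀ p ∈ I, ∀ m, homogeneousComponent m p ∈ I)
    (f : Fin (n + 1) → MvPolynomial (Fin (N + 1)) k)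
    (hf : ∀ i, (f i).IsHomogeneous d) (hfin : ∃ M, ∀ j, (X j) ^ M ∈ I ⊔ Ideal.span (Set.range f)) (v : Pl k) :
    ∃ C : ℝ, ∀ (L : Type u) [Field L] [Algebra k L] (s : G →* (L ≃ₐ[k] L)) (M : Pl k → L → ℝ), QSG s M →
      ∀ (y : Fin (N + 1) → L), (∃ j, y j = 1) → (∀ p ∈ I, aeval y p = 0) → (∀ i, aeval y (f i) ≠ 0) →
      ∀ g, ∃ i, gam s M y d (f i) v g ≤ C := by
  obtain ⟨C, hC⟩ := nul G I hI f hf hfin v
  refine ⟨C, ?_⟩
  intro L _ _ s M h y hy hyI hyf g
  obtain ⟨j, hj⟩ := hy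
  obtain ⟨i, hi⟩ := hC L s M h (fun j => s g (y j)) ⟨j, by rw [hj, map_one]⟩
    (fun p hp => by rw [← aeval_s63, hyI p hp, map_zero]) (fun i => by rw [← aeval_s63]; simpa using hyf i)
  refine ⟨i, ?_⟩
  rw [← aeval_s63] at hi
  exact hi

variable {L : Type u} [Field L] [Algebra k L] {s : G →* (L ≃ₐ[k] L)} {M : Pl k → L → ℝ} {N : ℕ} {y : Fin (N + 1) → L} {d : ℕ}
  {f : MvPolynomial (Fin (N + 1)) k} {v : Pl k}

omit [Fintype G] in
theorem gam_mul {Hs : Subgroup G} (hH : ∀ h ∈ Hs, ∀ j, s h (y j) = y j) {h : G} (hh : h ∈ Hs) (g : G) :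
    gam s M y d f v (g * h) = gam s M y d f v g := by
  have h1 : ∀ z, s (g * h) z = s g (s h z) := fun z => by rw [map_mul]; rfl
  have h2 : s h (aeval y f) = aeval y f := by rw [aeval_s63]; simp only [hH h hh]
  unfold gam
  rw [h1, h2]
  simp only [h1, hH h hh]

omit [Fintype G] in
theorem gam_fix {Hs : Subgroup G} (hH : ∀ h ∈ Hs, ∀ j, s h (y j) = y j) {g : G}
    (hg : ∀ z, (∀ h ∈ Hs, s h z = z) → M v (s g z) = M v z) : gam s M y d f v g = gam s M y d f v 1 := by
  have h2 : ∀ h ∈ Hs, s h (aeval y f) = aeval y f := fun h hh => by rw [aeval_s63]; simp only [hH h hh]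
  have h3 : ∀ z, s 1 z = z := fun z => by rw [map_one]; rfl
  unfold gam
  rw [hg _ h2, h3]
  have h4 : (mxn (M v) fun j => s g (y j)) = mxn (M v) fun j => s 1 (y j) := by
    unfold mxn
    refine iSup_congr fun j => ?_
    rw [hg _ fun h hh => hH h hh j]
    show _ = M v (s 1 (y j))
    rw [h3]
  rw [h4]

/-- the local value of a product -/
theorem gam_prod (h : QSG s M) {n b m : ℕ} (F : Fin n → MvPolynomial (Fin (N + 1)) k) (α : Fin n → ℕ)
    (p : MvPolynomial (Fin (N + 1)) k) (hm : ∑ i, α i + b = m) (hF : ∀ i, aeval y (F i) ≠ 0) (hp : aeval y p ≠ 0) (g : G) :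
    gam s M y (d * m) ((∏ i, F i ^ α i) * p) v g = ∑ i, α i * gam s M y d (F i) v g + gam s M y (d * b) p v g := by
  subst hm
  have h1 : ∀ z, z ≠ 0 → M v (s g z) ≠ 0 := fun z hz => (h.pos v _ (by simpa using hz)).ne'
  have e1 : Real.log (M v (s g (aeval y ((∏ i, F i ^ α i) * p)))) =
      ∑ i, α i * Real.log (M v (s g (aeval y (F i)))) + Real.log (M v (s g (aeval y p))) := by
    have hone : M v 1 = 1 := by
      have := h.ext v 1
      rw [map_one] at this
      rw [this]
      have h2 := h.mul v 1 1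
      have h3 := h.pos v 1 one_ne_zero
      have h4 := h.ext v 1
      rw [map_one] at h4
      rw [← h4]
      rw [mul_one] at h2
      exact (mul_left_cancel₀ h3.ne' (by rw [mul_one]; exact h2)).symm
    let φ : L →* ℝ := { toFun := M v, map_one' := hone, map_mul' := h.mul v }
    have e2 : M v (s g (aeval y ((∏ i, F i ^ α i) * p))) =
        (∏ i, M v (s g (aeval y (F i))) ^ α i) * M v (s g (aeval y p)) := by
      rw [map_mul, map_mul, h.mul, map_prod, map_prod]
      congr 1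
      have := map_prod φ (fun i => s g (aeval y (F i ^ α i))) Finset.univ
      refine this.trans (Finset.prod_congr rfl fun i _ => ?_)
      rw [map_pow, map_pow, map_pow]
      rfl
    rw [e2, Real.log_mul (Finset.prod_ne_zero_iff.2 fun i _ => pow_ne_zero _ (h1 _ (hF i))) (h1 _ hp),
      Real.log_prod fun i _ => pow_ne_zero _ (h1 _ (hF i))]
    simp only [Real.log_pow]
  unfold gam
  rw [e1]
  simp only [mul_sub, Finset.sum_sub_distrib]
  rw [← Finset.sum_mul]
  push_cast
  ring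

end

end Pool.Agent.SQ
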