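import Pool.Agent.Helper63.SQ5.A
import Pool.Agent.Helper63.SQ5.B
import Pool.Agent.Helper67.SQ4.VERm
import Pool.Agent.Helper67.SQ4.EFXq

/-!
# SQ5, block FINq: the inequality along the ultrafilter

The lemmas with suffix 23 are helper23's (FINX.lean).
-/

set_option autoImplicit false
set_option linter.unusedVariables false
set_option linter.unusedSectionVars false

namespace Pool.Agent.SQ

open NumberField Filter Module MvPolynomial
open Pool.Agent.Helper64.Vojta (Pl nv sn above)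
open Pool.Agent.V2
open Pool.Agent.Chart (fld dg crd hgt)

universe u

section

variable {k : Type u} [Field k] [NumberField k]

/-! ### ultrafilters -/

private theorem pig63 (U : Ultrafilter ℕ) {ι : Type*} [Finite ι] (p : ι → ℕ → Prop) (h : ∀ᶠ n in (U : Filter ℕ), ∃ j, p j n) :
    ∃ j, ∀ᶠ n in (U : Filter ℕ), p j n :=
  Ultrafilter.eventually_exists_iff.1 h

/-- a bounded function has a limit -/
private theorem lim63 (U : Ultrafilter ℕ) (F : ℕ → ℝ) (A : ℝ) (h : ∀ᶠ n in (U : Filter ℕ), 0 ≤ F n ∧ F n ≤ A) :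
    ∃ L : ℝ, 0 ≤ L ∧ Tendsto F (U : Filter ℕ) (nhds L) := by
  have h1 : (Ultrafilter.map F U : Filter ℝ) ≤ Filter.principal (Set.Icc 0 A) := by
    rw [Ultrafilter.coe_map, le_principal_iff, mem_map]
    exact h
  obtain ⟨L, hL, h2⟩ := isCompact_Icc.ultrafilter_le_nhds (Ultrafilter.map F U) h1
  exact ⟨L, hL.1, h2⟩

/-! ### homogeneous polynomials -/

section

variable {G : Type} [Group G] [Fintype G] {N : ℕ}

private theorem fd23 (e : ℕ) : FiniteDimensional k (homogeneousSubmodule (Fin (N + 1)) k e) := by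
  have hfin : {μ : Fin (N + 1) →₀ ℕ | μ.degree = e}.Finite := Finsupp.finite_of_degree_eq _
  have h1 : FiniteDimensional k (Submodule.span k ((fun μ => monomial μ (1 : k)) '' {μ : Fin (N + 1) →₀ ℕ | μ.degree = e})) :=
    FiniteDimensional.span_of_finite k (hfin.image _)
  refine Submodule.finiteDimensional_of_le (S₂ := Submodule.span k
    ((fun μ => monomial μ (1 : k)) '' {μ : Fin (N + 1) →₀ ℕ | μ.degree = e})) ?_
  intro p hp
  rw [p.as_sum]
  refine Submodule.sum_mem _ fun μ hμ => ?_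
  have h2 : μ.degree = e := by
    have h3 := (show p.IsHomogeneous e from hp) (mem_support_iff.1 hμ)
    rwa [Finsupp.degree_eq_weight_one]
  have h3 : monomial μ (coeff μ p) = coeff μ p • monomial μ (1 : k) := by
    rw [MvPolynomial.smul_monomial, smul_eq_mul, mul_one]
  rw [h3]
  exact Submodule.smul_mem _ _ (Submodule.subset_span ⟨μ, h2, rfl⟩)

private theorem hilb_pos23 (I : Ideal (MvPolynomial (Fin (N + 1)) k)) [I.IsPrime] (j : Fin (N + 1)) (hj : (X j : MvPolynomial (Fin (N + 1)) k) ∉ I)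
    (e : ℕ) : 0 < hilb I e := by
  have := fd23 (k := k) (N := N) e
  unfold hilb
  have h1 : X j ^ e ∉ I := fun h => hj (Ideal.IsPrime.mem_of_pow_mem ‹_› e h)
  have h2 : (X j ^ e : MvPolynomial (Fin (N + 1)) k) ∈ homogeneousSubmodule (Fin (N + 1)) k e := by
    have := (isHomogeneous_X k j).pow e
    simpa using this
  have h3 : Nontrivial ((homogeneousSubmodule (Fin (N + 1)) k e).map (Ideal.Quotient.mkₐ k I).toLinearMap) := by
    refine ⟨⟨⟨Ideal.Quotient.mk I (X j ^ e), ⟨_, h2, rfl⟩⟩, 0, fun h => h1 ?_⟩⟩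
    have := congrArg Subtype.val h
    exact Ideal.Quotient.eq_zero_iff_mem.1 this
  exact finrank_pos

/-- Two ideals with the same homogeneous elements of degree `e`. -/
private theorem hilb_congr23 (I J : Ideal (MvPolynomial (Fin (N + 1)) k)) (e : ℕ)
    (h : ∀ p : MvPolynomial (Fin (N + 1)) k, p.IsHomogeneous e → (p ∈ I ↔ p ∈ J)) : hilb I e = hilb J e := by
  unfold hilb
  have h1 : ∀ A : Ideal (MvPolynomial (Fin (N + 1)) k), (homogeneousSubmodule (Fin (N + 1)) k e).map (Ideal.Quotient.mkₐ k A).toLinearMap =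
      LinearMap.range ((Ideal.Quotient.mkₐ k A).toLinearMap.comp (homogeneousSubmodule (Fin (N + 1)) k e).subtype) := by
    intro A
    rw [LinearMap.range_comp, Submodule.range_subtype]
  rw [h1, h1]
  rw [← (LinearMap.quotKerEquivRange _).finrank_eq, ← (LinearMap.quotKerEquivRange _).finrank_eq]
  have h2 : LinearMap.ker ((Ideal.Quotient.mkₐ k I).toLinearMap.comp (homogeneousSubmodule (Fin (N + 1)) k e).subtype) =
      LinearMap.ker ((Ideal.Quotient.mkₐ k J).toLinearMap.comp (homogeneousSubmodule (Fin (N + 1)) k e).subtype) := by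
    ext p
    have h3 : ∀ A : Ideal (MvPolynomial (Fin (N + 1)) k), p ∈ LinearMap.ker ((Ideal.Quotient.mkₐ k A).toLinearMap.comp
        (homogeneousSubmodule (Fin (N + 1)) k e).subtype) ↔ p.1 ∈ A := fun A => Ideal.Quotient.eq_zero_iff_mem
    rw [h3, h3]
    exact h p.1 p.2
  rw [h2]

private theorem li_congr23 (I J : Ideal (MvPolynomial (Fin (N + 1)) k)) (e : ℕ)
    (h : ∀ p : MvPolynomial (Fin (N + 1)) k, p.IsHomogeneous e → (p ∈ I ↔ p ∈ J)) {ι : Type*} [Fintype ι]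
    (f : ι → MvPolynomial (Fin (N + 1)) k) (hf : ∀ i, (f i).IsHomogeneous e)
    (hI : LinearIndependent k fun i => Ideal.Quotient.mk I (f i)) : LinearIndependent k fun i => Ideal.Quotient.mk J (f i) := by
  classical
  rw [Fintype.linearIndependent_iff] at hI ⊢
  intro c hc
  refine hI c ?_
  have h1 : ∀ A : Ideal (MvPolynomial (Fin (N + 1)) k), ∑ i, c i • Ideal.Quotient.mk A (f i) = Ideal.Quotient.mk A (∑ i, c i • f i) := by
    intro A
    rw [map_sum]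
    refine Finset.sum_congr rfl fun i _ => ?_
    exact ((Ideal.Quotient.mkₐ k A).toLinearMap.map_smul (c i) (f i)).symm
  rw [h1, Ideal.Quotient.eq_zero_iff_mem] at hc ⊢
  refine (h _ ?_).2 hc
  exact Submodule.sum_mem (homogeneousSubmodule (Fin (N + 1)) k e) fun i _ => Submodule.smul_mem _ _ (hf i)

/-- the largest `n` values -/
private theorem top23 {q : ℕ} (A : Fin q → ℝ) {n : ℕ} (hn : n ≤ q) :
    ∃ J : Finset (Fin q), J.card = n ∧ ∀ i ∈ J, ∀ j, j ∉ J → A j ≤ A i := by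
  classical
  have hne : ((Finset.univ : Finset (Fin q)).powersetCard n).Nonempty :=
    Finset.powersetCard_nonempty.2 (by rwa [Finset.card_univ, Fintype.card_fin])
  obtain ⟨J, hJ, hmax⟩ := Finset.exists_max_image _ (fun J : Finset (Fin q) => ∑ i ∈ J, A i) hne
  rw [Finset.mem_powersetCard] at hJ
  refine ⟨J, hJ.2, fun i hi j hj => ?_⟩
  have h1 : j ∉ J.erase i := fun h => hj (Finset.mem_of_mem_erase h)
  have h2 := hmax (insert j (J.erase i)) (by
    rw [Finset.mem_powersetCard]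
    refine ⟨Finset.subset_univ _, ?_⟩
    rw [Finset.card_insert_of_notMem h1, Finset.card_erase_of_mem hi]
    have : 0 < J.card := Finset.card_pos.2 ⟨i, hi⟩
    omega)
  rw [Finset.sum_insert h1] at h2
  have h3 := Finset.add_sum_erase J A hi
  linarith

end

/-! ### the local terms -/

section loc

variable {G : Type} [Group G] [Fintype G] {D : SqG k G} {N : ℕ}

variable (y : ∀ a, Fin (N + 1) → D.L a)

/-- The selection of the `n + 1` smallest forms. -/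
private theorem sel63 (hx1 : ∀ a, ∃ j, y a j = 1) {n d q : ℕ} (hd : 0 < d) (hq : n + 1 ≤ q) (I : Ideal (MvPolynomial (Fin (N + 1)) k))
    (hI : ∀ p ∈ I, ∀ m, homogeneousComponent m p ∈ I) (hxI : ∀ a, ∀ p ∈ I, aeval (y a) p = 0)
    (f : Fin q → MvPolynomial (Fin (N + 1)) k) (hf : ∀ i, (f i).IsHomogeneous d)
    (hgp : ∀ J : Finset (Fin q), J.card = n + 1 → ∀ x : Fin (N + 1) → AlgebraicClosure k, (∀ p ∈ I, aeval x p = 0) →
      (∀ i ∈ J, aeval x (f i) = 0) → x = 0) (hxf : ∀ a, ∀ i, aeval (y a) (f i) ≠ 0) (v : Pl k) (g : G) :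
    ∃ j : Fin (n + 1) → Fin q, Function.Injective j ∧
      (∃ M, ∀ l, (X l : MvPolynomial (Fin (N + 1)) k) ^ M ∈ I ⊔ Ideal.span (Set.range fun l => f (j l))) ∧
      ∃ C : ℝ, 0 ≤ C ∧ ∀ᶠ a in (D.U : Filter ℕ), ∀ i, i ∉ Set.range j → gam (D.s a) (D.N a) (y a) d (f i) v g ≤ C := by
  classical
  obtain ⟨J, hJ⟩ := pig63 D.U (fun (J : Finset (Fin q)) a => J.card = n + 1 ∧ ∀ i ∈ J, ∀ j, j ∉ J →
    gam (D.s a) (D.N a) (y a) d (f j) v g ≤ gam (D.s a) (D.N a) (y a) d (f i) v g)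
    (Eventually.of_forall fun a => top23 (fun i => gam (D.s a) (D.N a) (y a) d (f i) v g) hq)
  obtain ⟨-, hJc, -⟩ := hJ.exists
  let j : Fin (n + 1) → Fin q := fun l => J.orderEmbOfFin hJc l
  have hj : Function.Injective j := (J.orderEmbOfFin hJc).injective
  have hjJ : ∀ l, j l ∈ J := fun l => Finset.orderEmbOfFin_mem J hJc l
  have him : Finset.univ.image j = J := by
    ext i
    rw [Finset.mem_image]
    constructor
    · rintro ⟨l, -, rfl⟩
      exact hjJ l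
    · intro hi
      have h1 : i ∈ Set.range (J.orderEmbOfFin hJc) := by
        rw [Finset.range_orderEmbOfFin]
        exact hi
      obtain ⟨l, hl⟩ := h1
      exact ⟨l, Finset.mem_univ _, hl⟩
  have hfin : ∃ M, ∀ l, (X l : MvPolynomial (Fin (N + 1)) k) ^ M ∈ I ⊔ Ideal.span (Set.range fun l => f (j l)) := by
    refine nul_alg hd I hI (fun l => f (j l)) (fun l => hf _) fun y hy hy0 => hgp J hJc y hy fun i hi => ?_
    rw [← him, Finset.mem_image] at hi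
    obtain ⟨l, -, rfl⟩ := hi
    exact hy0 l
  refine ⟨j, hj, hfin, ?_⟩
  obtain ⟨C, hC⟩ := gam_nul G I hI (fun l => f (j l)) (fun l => hf _) hfin v
  refine ⟨max 0 C, le_max_left _ _, ?_⟩
  filter_upwards [hJ] with a ha i hi
  obtain ⟨l, hl⟩ := hC (D.L a) (D.s a) (D.N a) (D.qs a) (y a) (hx1 a) (hxI a) (fun i => hxf a _) g
  have h1 : i ∉ J := by
    intro h
    rw [← him, Finset.mem_image] at h
    obtain ⟨l, -, h2⟩ := h
    exact hi ⟨l, h2⟩
  exact ((ha.2 (j l) (hjJ l) i h1).trans hl).trans (le_max_right _ _)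

/-- The lower bound for the products. -/
private theorem low63 (I : Ideal (MvPolynomial (Fin (N + 1)) k))
    (hxg : ∀ p : MvPolynomial (Fin (N + 1)) k, (∃ e, p.IsHomogeneous e) → p ∉ I → ∀ᶠ a in (D.U : Filter ℕ), aeval (y a) p ≠ 0)
    {n d : ℕ} (f : Fin (n + 1) → MvPolynomial (Fin (N + 1)) k)
    (hxf : ∀ a, ∀ i, aeval (y a) (f i) ≠ 0) (v : Pl k) {m r : ℕ} (α : Fin r → Fin (n + 1) → ℕ) (β : Fin r → ℕ)
    (b : Fin r → MvPolynomial (Fin (N + 1)) k) (hm : ∀ t, ∑ i, α t i + β t = m) (hb : ∀ t, (b t).IsHomogeneous (d * β t))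
    (hli : LinearIndependent k (fun t => Ideal.Quotient.mk I ((∏ i, f i ^ α t i) * b t))) :
    ∃ C : ℝ, 0 ≤ C ∧ ∀ᶠ a in (D.U : Filter ℕ), ∀ g t, ∑ l, α t l * gam (D.s a) (D.N a) (y a) d (f l) v g - C ≤
      gam (D.s a) (D.N a) (y a) (d * m) ((∏ i, f i ^ α t i) * b t) v g := by
  classical
  have h1 : ∀ t, ∀ᶠ a in (D.U : Filter ℕ), aeval (y a) (b t) ≠ 0 := by
    intro t
    refine hxg _ ⟨_, hb t⟩ fun h => ?_
    refine hli.ne_zero t ?_
    rw [Ideal.Quotient.eq_zero_iff_mem]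
    exact Ideal.mul_mem_left _ _ h
  have h2 := fun t => gam_ge G (b t) (hb t) {v}
  choose B hB0 hB using h2
  refine ⟨∑ t, B t, Finset.sum_nonneg fun t _ => hB0 t, ?_⟩
  filter_upwards [eventually_all.2 h1] with a ha g t
  rw [gam_prod (D.qs a) f (α t) (b t) (hm t) (hxf a) (ha t)]
  have h3 := hB t (D.L a) (D.s a) (D.N a) (D.qs a) (y a) (ha t) v (Finset.mem_singleton_self v) g
  have h4 : B t ≤ ∑ t, B t := Finset.single_le_sum (f := B) (fun t _ => hB0 t) (Finset.mem_univ t)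
  linarith

/-- The upper bound. -/
private theorem up63 (hx1 : Ptg D y) {d : ℕ} (f : MvPolynomial (Fin (N + 1)) k) (hf : f.IsHomogeneous d)
    (hxf : ∀ a, aeval (y a) f ≠ 0) (S : Finset (Pl k)) :
    ∃ C : ℝ, ∀ a, ∀ v ∈ S, ∀ g, gam (D.s a) (D.N a) (y a) d f v g ≤ d * D.H a + C := by
  classical
  obtain ⟨C1, h1⟩ := gam_sum G f hf S
  obtain ⟨C2, hC2, h2⟩ := gam_ge G f hf S
  refine ⟨C1 + S.card * (Fintype.card G * C2), fun a v hv g => ?_⟩
  have h3 := h1 (D.L a) (D.s a) (D.N a) (D.qs a) (y a) (hx1.1 a) (hxf a)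
  rw [← hx1.2 a] at h3
  have h4 : ∀ v ∈ S, ∀ g, 0 ≤ gam (D.s a) (D.N a) (y a) d f v g + C2 := fun v hv g => by
    have := h2 (D.L a) (D.s a) (D.N a) (D.qs a) (y a) (hxf a) v hv g
    linarith
  have h5 : gam (D.s a) (D.N a) (y a) d f v g + C2 ≤ ∑ v ∈ S, ∑ g, (gam (D.s a) (D.N a) (y a) d f v g + C2) := by
    have h6 : gam (D.s a) (D.N a) (y a) d f v g + C2 ≤ ∑ g, (gam (D.s a) (D.N a) (y a) d f v g + C2) :=
      Finset.single_le_sum (f := fun g => gam (D.s a) (D.N a) (y a) d f v g + C2) (fun g _ => h4 v hv g) (Finset.mem_univ g)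
    exact h6.trans (Finset.single_le_sum (f := fun v => ∑ g, (gam (D.s a) (D.N a) (y a) d f v g + C2))
      (fun v hv => Finset.sum_nonneg fun g _ => h4 v hv g) hv)
  simp only [Finset.sum_add_distrib, Finset.sum_const, Finset.card_univ, nsmul_eq_mul] at h5
  linarith

end loc

/-! ### the families -/

private theorem fam63 {N n d : ℕ} (hd : 0 < d) (I : Ideal (MvPolynomial (Fin (N + 1)) k)) [I.IsPrime]
    (hI : ∀ p ∈ I, ∀ m, homogeneousComponent m p ∈ I)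
    (hdim : Algebra.trdeg k (MvPolynomial (Fin (N + 1)) k ⧸ I) = n + 1) (S : Finset (Pl k)) {G : Type} [Finite G]
    (F : Pl k → G → Fin (n + 1) → MvPolynomial (Fin (N + 1)) k) (hF : ∀ v ∈ S, ∀ g l, (F v g l).IsHomogeneous d)
    (hfin : ∀ v ∈ S, ∀ g, ∃ M, ∀ l, (X l : MvPolynomial (Fin (N + 1)) k) ^ M ∈ I ⊔ Ideal.span (Set.range (F v g)))
    {θ : ℝ} (hθ : 0 ≤ θ) (hθ1 : θ ≤ 1) {ε : ℝ} (hε : 0 < ε) :
    ∀ᶠ m : ℕ in atTop, ∀ v ∈ S, ∀ g : G, ∃ (R : ℕ) (α : Fin R → Fin (n + 1) → ℕ) (β : Fin R → ℕ)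
      (b : Fin R → MvPolynomial (Fin (N + 1)) k), (∀ t, ∑ i, α t i + β t = m) ∧ (∀ t, (b t).IsHomogeneous (d * β t)) ∧
      LinearIndependent k (fun t => Ideal.Quotient.mk I ((∏ i, F v g i ^ α t i) * b t)) ∧
      ∀ i, (1 - ε) * (m * Eq n θ) * hilb I (d * m) ≤ ∑ t, min (θ * m) (α t i : ℝ) := by
  rw [Filter.eventually_all_finset]
  intro v hv
  rw [Filter.eventually_all]
  intro g
  obtain ⟨m0, hm0⟩ := efx_q hd I hI hdim (F v g) (hF v hv g) (hfin v hv g) hθ hθ1 hε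
  exact (eventually_ge_atTop m0).mono fun m hm => hm0 m hm

/-- the families are homogeneous -/
private theorem fam_ex63 {N n d m : ℕ} (I : Ideal (MvPolynomial (Fin (N + 1)) k)) (S : Finset (Pl k)) {G : Type}
    (F : Pl k → G → Fin (n + 1) → MvPolynomial (Fin (N + 1)) k) (hF : ∀ v ∈ S, ∀ g l, (F v g l).IsHomogeneous d)
    {κ θ : ℝ}
    (h : ∀ v ∈ S, ∀ g : G, ∃ (R : ℕ) (α : Fin R → Fin (n + 1) → ℕ) (β : Fin R → ℕ)
      (b : Fin R → MvPolynomial (Fin (N + 1)) k), (∀ t, ∑ i, α t i + β t = m) ∧ (∀ t, (b t).IsHomogeneous (d * β t)) ∧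
      LinearIndependent k (fun t => Ideal.Quotient.mk I ((∏ i, F v g i ^ α t i) * b t)) ∧
      ∀ i, κ ≤ ∑ t, min (θ * m) (α t i : ℝ)) :
    ∃ (R : Pl k → G → ℕ) (α : ∀ v g, Fin (R v g) → Fin (n + 1) → ℕ) (β : ∀ v g, Fin (R v g) → ℕ)
      (b : ∀ v g, Fin (R v g) → MvPolynomial (Fin (N + 1)) k),
      (∀ v ∈ S, ∀ g, (∀ t, ∑ i, α v g t i + β v g t = m) ∧ (∀ t, (b v g t).IsHomogeneous (d * β v g t)) ∧
      LinearIndependent k (fun t => Ideal.Quotient.mk I ((∏ i, F v g i ^ α v g t i) * b v g t)) ∧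
      ∀ i, κ ≤ ∑ t, min (θ * m) (α v g t i : ℝ)) ∧
      ∀ v g t, ((∏ i, F v g i ^ α v g t i) * b v g t).IsHomogeneous (d * m) := by
  classical
  have h2 : ∀ (v : Pl k) (g : G), ∃ (R : ℕ) (α : Fin R → Fin (n + 1) → ℕ) (β : Fin R → ℕ)
      (b : Fin R → MvPolynomial (Fin (N + 1)) k), (v ∈ S → (∀ t, ∑ i, α t i + β t = m) ∧
      (∀ t, (b t).IsHomogeneous (d * β t)) ∧
      LinearIndependent k (fun t => Ideal.Quotient.mk I ((∏ i, F v g i ^ α t i) * b t)) ∧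
      ∀ i, κ ≤ ∑ t, min (θ * m) (α t i : ℝ)) ∧ ∀ t, ((∏ i, F v g i ^ α t i) * b t).IsHomogeneous (d * m) := by
    intro v g
    by_cases hv : v ∈ S
    · obtain ⟨r, α, β, b, h1, h2, h3, h4⟩ := h v hv g
      refine ⟨r, α, β, b, fun _ => ⟨h1, h2, h3, h4⟩, fun t => ?_⟩
      have h5 : (∏ i, F v g i ^ α t i).IsHomogeneous (∑ i, d * α t i) :=
        IsHomogeneous.prod _ _ _ fun i _ => (hF v hv _ _).pow _
      have h6 := h5.mul (h2 t)
      have h7 : ∑ i, d * α t i + d * β t = d * m := by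
        rw [← h1 t, ← Finset.mul_sum, mul_add]
      rwa [h7] at h6
    · exact ⟨0, Fin.elim0, Fin.elim0, Fin.elim0, fun h => absurd h hv, fun t => t.elim0⟩
  choose R α β b hb hbh using h2
  exact ⟨R, α, β, b, fun v hv g => hb v g hv, hbh⟩

/-! ### the summation -/

private theorem lin_sum63 {G : Type*} [Fintype G] (T : Finset G) {u c e : ℝ} (hu : 0 ≤ u) (huc : u ≤ c) (hT : (T.card : ℝ) ≤ c)
    (hc : 1 ≤ c) (x E Y : G → ℝ) (hE : ∀ g, 0 ≤ E g) (he : 0 ≤ e) (h : ∀ g ∈ T, x g - e - E g ≤ Y g) :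
    u * ∑ g ∈ T, x g - c ^ 2 * e - c ^ 2 * ∑ g, E g ≤ u * ∑ g ∈ T, Y g := by
  have h1 : ∑ g ∈ T, (x g - e - E g) ≤ ∑ g ∈ T, Y g := Finset.sum_le_sum h
  rw [Finset.sum_sub_distrib, Finset.sum_sub_distrib, Finset.sum_const, nsmul_eq_mul] at h1
  have h2 := mul_le_mul_of_nonneg_left h1 hu
  have h3 : ∑ g ∈ T, E g ≤ ∑ g, E g := Finset.sum_le_sum_of_subset_of_nonneg (Finset.subset_univ _) fun g _ _ => hE g
  have h4 : 0 ≤ ∑ g, E g := Finset.sum_nonneg fun g _ => hE g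
  have h5 : u * (T.card * e) ≤ c ^ 2 * e := by
    have h6 : u * T.card ≤ c * c := mul_le_mul huc hT (Nat.cast_nonneg _) (by linarith)
    have h7 := mul_le_mul_of_nonneg_right h6 he
    have e1 : u * T.card * e = u * (T.card * e) := by ring
    have e2 : c * c * e = c ^ 2 * e := by ring
    rwa [e1, e2] at h7
  have h6 : u * ∑ g ∈ T, E g ≤ c ^ 2 * ∑ g, E g := by
    have h7 : u * ∑ g ∈ T, E g ≤ c * ∑ g, E g := mul_le_mul huc h3 (Finset.sum_nonneg fun g _ => hE g) (by linarith)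
    have h8 : c * ∑ g, E g ≤ c ^ 2 * ∑ g, E g := mul_le_mul_of_nonneg_right (by nlinarith) h4
    exact h7.trans h8
  rw [mul_sub, mul_sub] at h2
  linarith

private theorem pot_sum63 {r : ℕ} {c e h' : ℝ} (he : 0 ≤ e) (x Z E Y : Fin r → ℝ)
    (h : ∀ j, x j - (e + Z j * h') - E j ≤ Y j) :
    c ^ 2 * ∑ j, x j - (c ^ 2 * (r + 1) * e + (∑ j, c ^ 2 * Z j) * h') - c ^ 2 * ∑ j, E j ≤ c ^ 2 * ∑ j, Y j := by
  have h1 : ∑ j, (x j - (e + Z j * h') - E j) ≤ ∑ j, Y j := Finset.sum_le_sum fun j _ => h j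
  rw [Finset.sum_sub_distrib, Finset.sum_sub_distrib, Finset.sum_add_distrib, Finset.sum_const, nsmul_eq_mul,
    Finset.card_univ, Fintype.card_fin, ← Finset.sum_mul] at h1
  have h2 := mul_le_mul_of_nonneg_left h1 (sq_nonneg c)
  rw [← Finset.mul_sum]
  have h3 : 0 ≤ c ^ 2 * e := mul_nonneg (sq_nonneg c) he
  nlinarith

private theorem sum_fin63 {ι : Type*} (S : Finset ι) (tar ver Zv Cv : ι → ℝ) {M e w H η ε B : ℝ} (hM : 0 < M) (hH : 0 < H)
    (he : 0 ≤ e) (hw : 0 ≤ w)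
    (hew : e * ((S.card + 1) * w) = ε / 4) (hZ : η * ∑ v ∈ S, Zv v ≤ ε / 4 * M) (hC : ∑ v ∈ S, Cv v ≤ ε / 4 * M * H)
    (hε : 0 ≤ ε) (hver : ∑ v ∈ S, ver v ≤ (B + ε / 8 * M) * H)
    (h : ∀ v ∈ S, M * tar v - (w * (e * M * H) + Zv v * (η * H)) - Cv v ≤ ver v) {b : ℝ} (hb : B = M * b) :
    ∑ v ∈ S, tar v ≤ (b + ε) * H := by
  have h1 := (Finset.sum_le_sum h).trans hver
  rw [Finset.sum_sub_distrib, Finset.sum_sub_distrib, Finset.sum_add_distrib, Finset.sum_const, nsmul_eq_mul,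
    ← Finset.mul_sum, ← Finset.sum_mul] at h1
  have h2 : (S.card : ℝ) * (w * (e * M * H)) ≤ ε / 4 * (M * H) := by
    rw [← hew]
    have : 0 ≤ e * w * (M * H) := by positivity
    nlinarith
  have h3 : (∑ v ∈ S, Zv v) * (η * H) ≤ ε / 4 * (M * H) := by
    have := mul_le_mul_of_nonneg_right hZ hH.le
    nlinarith
  have h4 : M * ∑ v ∈ S, tar v ≤ M * ((b + ε) * H) := by
    subst hb
    have : 0 ≤ ε * (M * H) := by positivity
    nlinarith
  exact le_of_mul_le_mul_left h4 hM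

/-- types: `0` potentials, `1` one place, `2` decomposition group; `r` is the index of `Hs` -/
theorem core_q {G : Type} [Group G] [Fintype G] {D : SqG k G} {N n d q r : ℕ}
    (hd : 0 < d) (hq : n + 1 ≤ q) (I : Ideal (MvPolynomial (Fin (N + 1)) k)) [I.IsPrime]
    (hI : ∀ p ∈ I, ∀ m, homogeneousComponent m p ∈ I)
    (hdim : Algebra.trdeg k (MvPolynomial (Fin (N + 1)) k ⧸ I) = n + 1) (S : Finset (Pl k))
    (f : Pl k → Fin q → MvPolynomial (Fin (N + 1)) k) (hf : ∀ v ∈ S, ∀ i, (f v i).IsHomogeneous d)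
    (hgp : ∀ v ∈ S, ∀ J : Finset (Fin q), J.card = n + 1 → ∀ x : Fin (N + 1) → AlgebraicClosure k, (∀ p ∈ I, aeval x p = 0) →
      (∀ i ∈ J, aeval x (f v i) = 0) → x = 0)
    (y : ∀ a, Fin (N + 1) → D.L a) (hy : Ptg D y) (hyI : ∀ a, ∀ p ∈ I, aeval (y a) p = 0)
    (hyv : ∀ p : MvPolynomial (Fin (N + 1)) k, (∃ e, p.IsHomogeneous e) → p ∉ I → ∀ᶠ a in (D.U : Filter ℕ), aeval (y a) p ≠ 0)
    (hyf : ∀ a, ∀ v ∈ S, ∀ i, aeval (y a) (f v i) ≠ 0)
    (Hs : Subgroup G) (hH : ∀ a, ∀ h ∈ Hs, ∀ j, D.s a h (y a j) = y a j) (Cv Dv : Pl k → Finset G)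
    (hCv : ∀ a, ∀ v ∈ S, ∀ g ∈ Cv v, ∀ z : D.L a, (∀ h ∈ Hs, D.s a h z = z) → D.N a v (D.s a g z) = D.N a v z)
    (hDv : ∀ a, ∀ v ∈ S, ∀ u ∈ Dv v, ∀ (g : G) (z : D.L a), (∀ h ∈ Hs, D.s a h z = z) →
      D.N a v (D.s a (u * g) z) = D.N a v (D.s a g z))
    (ρ : Fin r → G) (hρ : ∀ g, ∃! j, (ρ j)⁻¹ * g ∈ Hs) (ty : Pl k → Fin 3) {θ : ℝ} (hθ : 0 ≤ θ) (hθ1 : θ ≤ 1)
    {ε : ℝ} (hε : 0 < ε) :
    ∀ᶠ a in (D.U : Filter ℕ), ∑ v ∈ S,
      (if ty v = 0 then (Fintype.card G : ℝ) ^ 2 * ((Eq n θ - (1 - 1 / (r : ℝ)) * θ) *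
          ∑ j, ∑ i, gam (D.s a) (D.N a) (y a) d (f v i) v (ρ j))
        else if ty v = 1 then (Cv v).card * Nat.card Hs / (n + 1) * ∑ i, gam (D.s a) (D.N a) (y a) d (f v i) v 1
        else (Dv v).card / (n + 1) * ∑ g, ∑ i, gam (D.s a) (D.N a) (y a) d (f v i) v g) ≤
      (Fintype.card G * d + ε) * D.H a := by
  classical
  -- a coordinate which is not in the ideal
  obtain ⟨j0, hj0⟩ : ∃ j, (X j : MvPolynomial (Fin (N + 1)) k) ∉ I := by
    obtain ⟨j, hj⟩ := hy.1 0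
    refine ⟨j, fun h => ?_⟩
    have h1 := hyI 0 _ h
    rw [aeval_X, hj] at h1
    exact one_ne_zero h1
  -- the homogeneous elements of the two ideals
  have hvan : ∀ e : ℕ, ∀ p : MvPolynomial (Fin (N + 1)) k, p.IsHomogeneous e → (p ∈ I ↔ p ∈ vanI D y) := by
    intro e p hp
    constructor
    · intro h
      exact Eventually.of_forall fun a => hyI a p h
    · intro h
      by_contra h1
      obtain ⟨a, h2, h3⟩ := (hyv p ⟨e, hp⟩ h1).and h |>.exists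
      exact h2 h3
  -- the constants
  obtain ⟨c, hc⟩ : ∃ c : ℝ, c = (Fintype.card G : ℝ) := ⟨_, rfl⟩
  have hc1 : 1 ≤ c := by
    rw [hc]
    exact_mod_cast Fintype.card_pos
  obtain ⟨K, hK⟩ : ∃ K : ℝ, K = (d : ℝ) + 1 := ⟨_, rfl⟩
  have hK0 : 0 < K := by
    rw [hK]
    positivity
  obtain ⟨W, hW⟩ : ∃ W : ℝ, W = (S.card + 1) * (c ^ 2 * (r + 1) * ((n + 1) * K)) := ⟨_, rfl⟩
  have hW0 : 0 < W := by
    rw [hW]
    positivity
  obtain ⟨ε', hε'⟩ : ∃ ε' : ℝ, ε' = ε / (4 * W) := ⟨_, rfl⟩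
  have hε'0 : 0 < ε' := by
    rw [hε']
    positivity
  have hε'W : ε' * W = ε / 4 := by
    rw [hε']
    field_simp
  -- lower bounds
  have hlo : ∀ v i, ∃ C : ℝ, 0 ≤ C ∧ (v ∈ S → ∀ a g, -C ≤ gam (D.s a) (D.N a) (y a) d (f v i) v g) := by
    intro v i
    by_cases hv : v ∈ S
    · obtain ⟨C, hC, h⟩ := gam_ge G (f v i) (hf v hv i) S
      exact ⟨C, hC, fun _ a g => h (D.L a) (D.s a) (D.N a) (D.qs a) (y a) (hyf a v hv i) v hv g⟩
    · exact ⟨0, le_rfl, fun h => absurd h hv⟩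
  choose Cl hCl0 hCl using hlo
  obtain ⟨C0, hC0⟩ : ∃ C0 : ℝ, C0 = ∑ v ∈ S, ∑ i, Cl v i := ⟨_, rfl⟩
  have hC00 : 0 ≤ C0 := by
    rw [hC0]
    exact Finset.sum_nonneg fun v _ => Finset.sum_nonneg fun i _ => hCl0 v i
  have hlow : ∀ v ∈ S, ∀ i a g, -C0 ≤ gam (D.s a) (D.N a) (y a) d (f v i) v g := by
    intro v hv i a g
    have h1 := hCl v i hv a g
    have h2 : Cl v i ≤ ∑ i, Cl v i := Finset.single_le_sum (f := fun i => Cl v i) (fun i _ => hCl0 v i) (Finset.mem_univ i)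
    have h3 : ∑ i, Cl v i ≤ C0 := by
      rw [hC0]
      exact Finset.single_le_sum (f := fun v => ∑ i, Cl v i) (fun v _ => Finset.sum_nonneg fun i _ => hCl0 v i) hv
    linarith
  -- upper bounds
  have hup : ∀ᶠ a in (D.U : Filter ℕ), ∀ v ∈ S, ∀ i g, gam (D.s a) (D.N a) (y a) d (f v i) v g ≤ K * D.H a := by
    rw [Filter.eventually_all_finset]
    intro v hv
    rw [Filter.eventually_all]
    intro i
    obtain ⟨C, hC⟩ := up63 y hy (f v i) (hf v hv i) (fun a => hyf a v hv i) S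
    filter_upwards [D.H1.eventually_ge_atTop C] with a ha g
    have h1 := hC a v hv g
    rw [hK]
    linarith
  have hHpos : ∀ᶠ a in (D.U : Filter ℕ), 0 < D.H a := D.H1.eventually_gt_atTop 0
  -- the selections
  have hsel : ∀ (v : Pl k) (g : G), ∃ j : Fin (n + 1) → Fin q, Function.Injective j ∧ (v ∈ S →
      (∃ M, ∀ l, (X l : MvPolynomial (Fin (N + 1)) k) ^ M ∈ I ⊔ Ideal.span (Set.range fun l => f v (j l)))) ∧
      ∃ C : ℝ, 0 ≤ C ∧ (v ∈ S → ∀ᶠ a in (D.U : Filter ℕ), ∀ i, i ∉ Set.range j →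
        gam (D.s a) (D.N a) (y a) d (f v i) v g ≤ C) := by
    intro v g
    by_cases hv : v ∈ S
    · obtain ⟨j, hj, h1, C, hC, h2⟩ := sel63 y hy.1 hd hq I hI hyI (f v) (hf v hv) (hgp v hv) (fun a => hyf a v hv) v g
      exact ⟨j, hj, fun _ => h1, C, hC, fun _ => h2⟩
    · exact ⟨fun l => ⟨l, lt_of_lt_of_le l.2 hq⟩, fun a b h => by
        simpa [Fin.ext_iff] using h, fun h => absurd h hv, 0, le_rfl, fun h => absurd h hv⟩
  choose J hJi hJf C1 hC10 hC1 using hsel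
  -- the limits
  have hlim : ∀ (v : Pl k) (g : G), ∃ L : ℝ, 0 ≤ L ∧ (v ∈ S → ∀ η : ℝ, 0 < η → ∀ᶠ a in (D.U : Filter ℕ),
      |∑ l, max 0 (gam (D.s a) (D.N a) (y a) d (f v (J v g l)) v g) - L * D.H a| ≤ η * D.H a) := by
    intro v g
    by_cases hv : v ∈ S
    · obtain ⟨L, hL0, hL⟩ := lim63 D.U (fun a => (∑ l, max 0 (gam (D.s a) (D.N a) (y a) d (f v (J v g l)) v g)) / D.H a)
        ((n + 1) * K) (by
        filter_upwards [hup, hHpos] with a h1 h2
        refine ⟨div_nonneg (Finset.sum_nonneg fun l _ => le_max_left _ _) h2.le, ?_⟩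
        rw [div_le_iff₀ h2]
        have h3 : ∑ l : Fin (n + 1), max 0 (gam (D.s a) (D.N a) (y a) d (f v (J v g l)) v g) ≤ ∑ l : Fin (n + 1), K * D.H a :=
          Finset.sum_le_sum fun l _ => max_le (by positivity) (h1 v hv _ g)
        refine h3.trans (le_of_eq ?_)
        rw [Finset.sum_const, Finset.card_univ, Fintype.card_fin, nsmul_eq_mul]
        push_cast
        ring)
      refine ⟨L, hL0, fun _ η hη => ?_⟩
      have h1 := hL.eventually (Metric.ball_mem_nhds L hη)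
      filter_upwards [h1, hHpos] with a h2 h3
      rw [Real.dist_eq] at h2
      have h4 : ∑ l, max 0 (gam (D.s a) (D.N a) (y a) d (f v (J v g l)) v g) - L * D.H a =
          ((∑ l, max 0 (gam (D.s a) (D.N a) (y a) d (f v (J v g l)) v g)) / D.H a - L) * D.H a := by
        rw [sub_mul, div_mul_cancel₀ _ h3.ne']
      rw [h4, abs_mul, abs_of_pos h3]
      exact mul_le_mul_of_nonneg_right h2.le h3.le
    · exact ⟨0, le_rfl, fun h => absurd h hv⟩
  choose L hL0 hL using hlim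
  -- the families
  have hFh : ∀ v ∈ S, ∀ (g : G) l, (f v (J v g l)).IsHomogeneous d := fun v hv g l => hf v hv _
  obtain ⟨m, ⟨hm1, hm0⟩, hmpos⟩ := (((fam63 hd I hI hdim S (fun v g l => f v (J v g l)) hFh
    (fun v hv g => hJf v g hv) zero_le_one le_rfl hε'0).and (fam63 hd I hI hdim S (fun v g l => f v (J v g l)) hFh
    (fun v hv g => hJf v g hv) hθ hθ1 hε'0)).and (eventually_ge_atTop 1)).exists
  obtain ⟨R1, α1, β1, b1, hb1, hh1⟩ := fam_ex63 I S (fun v g l => f v (J v g l)) hFh hm1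
  obtain ⟨R0, α0, β0, b0, hb0, hh0⟩ := fam_ex63 I S (fun v g l => f v (J v g l)) hFh hm0
  obtain ⟨Dm, hDm⟩ : ∃ Dm : ℝ, Dm = hilb I (d * m) := ⟨_, rfl⟩
  have hDm0 : 0 < Dm := by
    rw [hDm]
    exact_mod_cast hilb_pos23 I j0 hj0 (d * m)
  have hm0' : (0 : ℝ) < m := by exact_mod_cast hmpos
  have hmD : 0 < m * Dm := mul_pos hm0' hDm0
  -- the constants of the families
  have hlw1 : ∀ (v : Pl k) (g : G), ∃ C : ℝ, 0 ≤ C ∧ (v ∈ S → ∀ᶠ a in (D.U : Filter ℕ), ∀ t,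
      ∑ l, α1 v g t l * gam (D.s a) (D.N a) (y a) d (f v (J v g l)) v g - C ≤
      gam (D.s a) (D.N a) (y a) (d * m) ((∏ i, f v (J v g i) ^ α1 v g t i) * b1 v g t) v g) := by
    intro v g
    by_cases hv : v ∈ S
    · obtain ⟨C, hC, h1⟩ := low63 y I hyv (fun l => f v (J v g l)) (fun a l => hyf a v hv _) v (α1 v g) (β1 v g) (b1 v g)
        (hb1 v hv g).1 (hb1 v hv g).2.1 (hb1 v hv g).2.2.1
      exact ⟨C, hC, fun _ => h1.mono fun a h t => h g t⟩
    · exact ⟨0, le_rfl, fun h => absurd h hv⟩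
  choose B1 hB10 hB1 using hlw1
  have hlw0 : ∀ (v : Pl k) (g : G), ∃ C : ℝ, 0 ≤ C ∧ (v ∈ S → ∀ᶠ a in (D.U : Filter ℕ), ∀ t,
      ∑ l, α0 v g t l * gam (D.s a) (D.N a) (y a) d (f v (J v g l)) v g - C ≤
      gam (D.s a) (D.N a) (y a) (d * m) ((∏ i, f v (J v g i) ^ α0 v g t i) * b0 v g t) v g) := by
    intro v g
    by_cases hv : v ∈ S
    · obtain ⟨C, hC, h1⟩ := low63 y I hyv (fun l => f v (J v g l)) (fun a l => hyf a v hv _) v (α0 v g) (β0 v g) (b0 v g)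
        (hb0 v hv g).1 (hb0 v hv g).2.1 (hb0 v hv g).2.2.1
      exact ⟨C, hC, fun _ => h1.mono fun a h t => h g t⟩
    · exact ⟨0, le_rfl, fun h => absurd h hv⟩
  choose B0 hB00 hB0 using hlw0
  -- the error `η`
  obtain ⟨Z, hZ⟩ : ∃ Z : ℝ, Z = ∑ v ∈ S, ∑ j, c ^ 2 * (R0 v (ρ j) * m + m * Dm) := ⟨_, rfl⟩
  have hZ0 : 0 ≤ Z := by
    rw [hZ]
    exact Finset.sum_nonneg fun v _ => Finset.sum_nonneg fun j _ => by positivity
  obtain ⟨η, hη⟩ : ∃ η : ℝ, η = ε / 4 * (m * Dm) / (Z + 1) := ⟨_, rfl⟩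
  have hη0 : 0 < η := by
    rw [hη]
    positivity
  have hηZ : η * Z ≤ ε / 4 * (m * Dm) := by
    rw [hη, div_mul_eq_mul_div, div_le_iff₀ (by positivity)]
    have : 0 ≤ ε / 4 * (m * Dm) := by positivity
    nlinarith
  -- the constants
  obtain ⟨E1, hE1⟩ : ∃ E1 : Pl k → G → ℝ, E1 = fun v g => m * Dm / (n + 1) * (q * C1 v g) + R1 v g * (C0 * m + B1 v g) := ⟨_, rfl⟩
  obtain ⟨E0, hE0⟩ : ∃ E0 : Pl k → G → ℝ, E0 = fun v g => m * Dm * ((q + n + 1) * (C0 + C1 v g)) +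
    R0 v g * (C0 * m + B0 v g) := ⟨_, rfl⟩
  have hE10 : ∀ v g, 0 ≤ E1 v g := by
    intro v g
    have := hC10 v g
    have := hB10 v g
    rw [hE1]
    positivity
  have hE00 : ∀ v g, 0 ≤ E0 v g := by
    intro v g
    have := hC10 v g
    have := hB00 v g
    rw [hE0]
    positivity
  obtain ⟨Ct, hCt⟩ : ∃ Ct : ℝ, Ct = ∑ v ∈ S, c ^ 2 * (∑ g, E1 v g + ∑ j, E0 v (ρ j)) := ⟨_, rfl⟩
  -- the inequality of the algebra
  let lin : Pl k → Prop := fun v => ty v ≠ 0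
  let Gd : Pl k → Finset G := fun v => if ty v = 1 then Cv v else Dv v
  let T : Pl k → Finset G := fun v => if ty v = 1 then Finset.univ.filter fun g => g ∈ Hs else Finset.univ
  have hver := ver_m (δ := d * m) (Nat.mul_pos hd hmpos) y hy S Hs hH lin Gd T (by
      intro a v hv hl u hu g hg z hz
      by_cases h1 : ty v = 1
      · have hu' : u ∈ Cv v := by simpa only [Gd, if_pos h1] using hu
        have hg' : g ∈ Hs := by simpa only [T, if_pos h1, Finset.mem_filter, Finset.mem_univ, true_and] using hg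
        have e1 : D.s a (u * g) z = D.s a u z := by
          rw [map_mul]
          show D.s a u (D.s a g z) = _
          rw [hz g hg']
        rw [e1, hz g hg']
        exact hCv a v hv u hu' z hz
      · have hu' : u ∈ Dv v := by simpa only [Gd, if_neg h1] using hu
        exact hDv a v hv u hu' g z hz) ρ hρ R1
    (fun v g t => (∏ i, f v (J v g i) ^ α1 v g t i) * b1 v g t) hh1
    (fun v hv g => li_congr23 I (vanI D y) (d * m) (hvan (d * m)) _ (hh1 v g) (hb1 v hv g).2.2.1)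
    (fun v j => m * θ * L v (ρ j)) (fun v j => by
      have := hL0 v (ρ j)
      positivity) (fun v j => R0 v (ρ j))
    (fun v j t => (∏ i, f v (J v (ρ j) i) ^ α0 v (ρ j) t i) * b0 v (ρ j) t) (fun v j => hh0 v (ρ j))
    (fun v hv j => li_congr23 I (vanI D y) (d * m) (hvan (d * m)) _ (hh0 v (ρ j)) (hb0 v hv (ρ j)).2.2.1)
    (ε := ε / 8 * (m * Dm)) (by positivity)
  rw [← hilb_congr23 I (vanI D y) (d * m) (hvan (d * m)), ← hDm, ← hc] at hver
  have hH1 : ∀ᶠ a in (D.U : Filter ℕ), Ct ≤ ε / 4 * (m * Dm) * D.H a := by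
    filter_upwards [D.H1.eventually_ge_atTop (Ct / (ε / 4 * (m * Dm)))] with a ha
    rw [div_le_iff₀ (by positivity)] at ha
    linarith
  have hC1' : ∀ᶠ a in (D.U : Filter ℕ), ∀ v ∈ S, ∀ g, ∀ i, i ∉ Set.range (J v g) →
      gam (D.s a) (D.N a) (y a) d (f v i) v g ≤ C1 v g :=
    (Filter.eventually_all_finset S).2 fun v hv => Filter.eventually_all.2 fun g => hC1 v g hv
  have hL' : ∀ᶠ a in (D.U : Filter ℕ), ∀ v ∈ S, ∀ g,
      |∑ l, max 0 (gam (D.s a) (D.N a) (y a) d (f v (J v g l)) v g) - L v g * D.H a| ≤ η * D.H a :=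
    (Filter.eventually_all_finset S).2 fun v hv => Filter.eventually_all.2 fun g => hL v g hv η hη0
  have hB1' : ∀ᶠ a in (D.U : Filter ℕ), ∀ v ∈ S, ∀ g, ∀ t,
      ∑ l, α1 v g t l * gam (D.s a) (D.N a) (y a) d (f v (J v g l)) v g - B1 v g ≤
      gam (D.s a) (D.N a) (y a) (d * m) ((∏ i, f v (J v g i) ^ α1 v g t i) * b1 v g t) v g :=
    (Filter.eventually_all_finset S).2 fun v hv => Filter.eventually_all.2 fun g => hB1 v g hv
  have hB0' : ∀ᶠ a in (D.U : Filter ℕ), ∀ v ∈ S, ∀ g, ∀ t,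
      ∑ l, α0 v g t l * gam (D.s a) (D.N a) (y a) d (f v (J v g l)) v g - B0 v g ≤
      gam (D.s a) (D.N a) (y a) (d * m) ((∏ i, f v (J v g i) ^ α0 v g t i) * b0 v g t) v g :=
    (Filter.eventually_all_finset S).2 fun v hv => Filter.eventually_all.2 fun g => hB0 v g hv
  filter_upwards [hver, hup, hHpos, hC1', hL', hB1', hB0', hH1] with a hva hua hHa hCa hLa hB1a hB0a hCta
  have hKH : 0 ≤ K * D.H a := mul_nonneg hK0.le hHa.le
  have hα1 : ∀ v ∈ S, ∀ g t, ∑ l, α1 v g t l ≤ m := fun v hv g t => by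
    have := (hb1 v hv g).1 t
    omega
  have hα0 : ∀ v ∈ S, ∀ g t, ∑ l, α0 v g t l ≤ m := fun v hv g t => by
    have := (hb0 v hv g).1 t
    omega
  have hA1 : ∀ v ∈ S, ∀ g, m * Dm / (n + 1) * ∑ i, gam (D.s a) (D.N a) (y a) d (f v i) v g - ε' * (m * Dm) * (K * D.H a) - E1 v g ≤
      ∑ t, gam (D.s a) (D.N a) (y a) (d * m) ((∏ i, f v (J v g i) ^ α1 v g t i) * b1 v g t) v g := by
    intro v hv g
    rw [hE1]
    refine FinQ.abs_lin (fun i => gam (D.s a) (D.N a) (y a) d (f v i) v g) (J v g) (hJi v g) m (α1 v g) (hα1 v hv g) _ hC00 (hC10 v g)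
      hDm0.le hε'0.le (fun i => hlow v hv i a g) (hCa v hv g) (hB1a v hv g) (fun i => hua v hv i g) hKH fun l => ?_
    have h1 := (hb1 v hv g).2.2.2 l
    rw [FinQ.Eq_one, ← hDm] at h1
    exact h1.trans (Finset.sum_le_sum fun t _ => min_le_right _ _)
  have hr1 : 0 ≤ 1 - 1 / (r : ℝ) ∧ 1 - 1 / (r : ℝ) ≤ 1 := by
    constructor
    · rcases Nat.eq_zero_or_pos r with h | h
      · subst h
        simp
      · have h1 : (1 : ℝ) ≤ r := by exact_mod_cast h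
        have h2 : 1 / (r : ℝ) ≤ 1 := by
          rw [div_le_one (by linarith)]
          exact h1
        linarith
    · have : 0 ≤ 1 / (r : ℝ) := by positivity
      linarith
  have hA0 : ∀ v ∈ S, ∀ j, m * Dm * ((Eq n θ - (1 - 1 / (r : ℝ)) * θ) * ∑ i, gam (D.s a) (D.N a) (y a) d (f v i) v (ρ j)) -
      (ε' * (m * Dm) * ((n + 1) * (K * D.H a)) + (R0 v (ρ j) * m + m * Dm) * (η * D.H a)) - E0 v (ρ j) ≤
      ∑ t, min (m * θ * L v (ρ j) * D.H a)
        (gam (D.s a) (D.N a) (y a) (d * m) ((∏ i, f v (J v (ρ j) i) ^ α0 v (ρ j) t i) * b0 v (ρ j) t) v (ρ j)) -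
      (1 - 1 / (r : ℝ)) * (m * θ * L v (ρ j) * D.H a) * Dm := by
    intro v hv j
    rw [hE0]
    refine FinQ.abs_min (fun i => gam (D.s a) (D.N a) (y a) d (f v i) v (ρ j)) (J v (ρ j)) (hJi v (ρ j)) m (α0 v (ρ j))
      (hα0 v hv (ρ j)) _ hC00 (hC10 v (ρ j)) hDm0.le hε'0.le (fun i => hlow v hv i a (ρ j)) (hCa v hv (ρ j))
      (hB0a v hv (ρ j)) (fun i => hua v hv i (ρ j)) hKH hθ hθ1 (FinQ.Eq_nonneg hθ hθ1) ((FinQ.Eq_le hθ hθ1).trans hθ1) hr1.1 hr1.2
      (hB00 v (ρ j)) (hLa v hv (ρ j)) fun l => ?_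
    have h1 := (hb0 v hv (ρ j)).2.2.2 l
    rw [← hDm] at h1
    exact h1
  have hcard : ∀ A : Finset G, (A.card : ℝ) ≤ c := fun A => by
    rw [hc]
    exact_mod_cast Finset.card_le_univ A
  have hM0 : 0 ≤ ε' * (m * Dm) * D.H a := mul_nonneg (mul_nonneg hε'0.le hmD.le) hHa.le
  have hWc : c ^ 2 * (ε' * (m * Dm) * (K * D.H a)) ≤ c ^ 2 * (r + 1) * ((n + 1) * K) * (ε' * (m * Dm) * D.H a) := by
    have h1 : 0 ≤ c ^ 2 * K * (ε' * (m * Dm) * D.H a) := mul_nonneg (mul_nonneg (sq_nonneg c) hK0.le) hM0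
    have h2 : (1 : ℝ) ≤ (r + 1) * (n + 1) := by
      have h3 : (0 : ℝ) ≤ r := Nat.cast_nonneg _
      have h4 : (0 : ℝ) ≤ n := Nat.cast_nonneg _
      nlinarith
    have h3 := mul_le_mul_of_nonneg_right h2 h1
    have e1 : 1 * (c ^ 2 * K * (ε' * (m * Dm) * D.H a)) = c ^ 2 * (ε' * (m * Dm) * (K * D.H a)) := by ring
    have e2 : (r + 1) * (n + 1) * (c ^ 2 * K * (ε' * (m * Dm) * D.H a)) =
        c ^ 2 * (r + 1) * ((n + 1) * K) * (ε' * (m * Dm) * D.H a) := by ring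
    rwa [e1, e2] at h3
  have hE1s : ∀ v, 0 ≤ ∑ g, E1 v g := fun v => Finset.sum_nonneg fun g _ => hE10 v g
  have hE0s : ∀ v, 0 ≤ ∑ j, E0 v (ρ j) := fun v => Finset.sum_nonneg fun j _ => hE00 v (ρ j)
  have hZs : ∀ v, 0 ≤ (∑ j, c ^ 2 * (R0 v (ρ j) * m + m * Dm)) * (η * D.H a) := fun v =>
    mul_nonneg (Finset.sum_nonneg fun j _ => by positivity) (by positivity)
  rw [← hc]
  refine sum_fin63 S _ _ (fun v => ∑ j, c ^ 2 * (R0 v (ρ j) * m + m * Dm)) (fun v => c ^ 2 * (∑ g, E1 v g + ∑ j, E0 v (ρ j)))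
    (w := c ^ 2 * (r + 1) * ((n + 1) * K)) hmD hHa hε'0.le (by positivity) (by rw [← hW]; exact hε'W)
    (by rw [← hZ]; exact hηZ) (by rw [← hCt]; exact hCta) hε.le hva ?_ (by push_cast; ring)
  intro v hv
  by_cases h0 : ty v = 0
  · rw [if_pos h0, if_neg (show ¬ lin v from fun h => h h0)]
    have h2 := pot_sum63 (c := c) (e := ε' * (m * Dm) * ((n + 1) * (K * D.H a))) (h' := η * D.H a) (by positivity)
      (fun j => m * Dm * ((Eq n θ - (1 - 1 / (r : ℝ)) * θ) * ∑ i, gam (D.s a) (D.N a) (y a) d (f v i) v (ρ j)))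
      (fun j => (R0 v (ρ j) * m + m * Dm)) (fun j => E0 v (ρ j)) _ (hA0 v hv)
    refine le_trans ?_ h2
    have h3 : 0 ≤ c ^ 2 * ∑ g, E1 v g := mul_nonneg (sq_nonneg c) (hE1s v)
    have e1 : c ^ 2 * (r + 1) * (ε' * (m * Dm) * ((n + 1) * (K * D.H a))) =
        c ^ 2 * (r + 1) * ((n + 1) * K) * (ε' * (m * Dm) * D.H a) := by ring
    have e2 : c ^ 2 * (∑ g, E1 v g + ∑ j, E0 v (ρ j)) = c ^ 2 * ∑ g, E1 v g + c ^ 2 * ∑ j, E0 v (ρ j) := by ring
    have e3 : m * Dm * (c ^ 2 * ((Eq n θ - (1 - 1 / (r : ℝ)) * θ) *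
        ∑ j, ∑ i, gam (D.s a) (D.N a) (y a) d (f v i) v (ρ j))) = c ^ 2 * ∑ j, m * Dm * ((Eq n θ - (1 - 1 / (r : ℝ)) * θ) *
        ∑ i, gam (D.s a) (D.N a) (y a) d (f v i) v (ρ j)) := by
      rw [← Finset.mul_sum, ← Finset.mul_sum]
      ring
    rw [e1, e2, e3]
    linarith
  · rw [if_neg h0, if_pos (show lin v from h0)]
    have h2 := lin_sum63 (T v) (u := ((Gd v).card : ℝ)) (c := c) (e := ε' * (m * Dm) * (K * D.H a)) (Nat.cast_nonneg _)
      (hcard _) (hcard _) hc1 (fun g => m * Dm / (n + 1) * ∑ i, gam (D.s a) (D.N a) (y a) d (f v i) v g) (E1 v) _ (hE10 v)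
      (by positivity) (fun g _ => hA1 v hv g)
    refine le_trans ?_ h2
    have h3 : 0 ≤ c ^ 2 * ∑ j, E0 v (ρ j) := mul_nonneg (sq_nonneg c) (hE0s v)
    have e2 : c ^ 2 * (∑ g, E1 v g + ∑ j, E0 v (ρ j)) = c ^ 2 * ∑ g, E1 v g + c ^ 2 * ∑ j, E0 v (ρ j) := by ring
    have h4 := hZs v
    have h5 : m * Dm * (if ty v = 1 then (Cv v).card * Nat.card Hs / (n + 1) *
        ∑ i, gam (D.s a) (D.N a) (y a) d (f v i) v 1 else (Dv v).card / (n + 1) *
        ∑ g, ∑ i, gam (D.s a) (D.N a) (y a) d (f v i) v g) =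
        (Gd v).card * ∑ g ∈ T v, m * Dm / (n + 1) * ∑ i, gam (D.s a) (D.N a) (y a) d (f v i) v g := by
      by_cases h1 : ty v = 1
      · have e3 : ∑ g ∈ T v, m * Dm / (n + 1) * ∑ i, gam (D.s a) (D.N a) (y a) d (f v i) v g =
            ∑ g ∈ T v, m * Dm / (n + 1) * ∑ i, gam (D.s a) (D.N a) (y a) d (f v i) v 1 := by
          refine Finset.sum_congr rfl fun g hg => ?_
          have hg' : g ∈ Hs := by simpa only [T, if_pos h1, Finset.mem_filter, Finset.mem_univ, true_and] using hg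
          congr 1
          refine Finset.sum_congr rfl fun i _ => ?_
          have h6 := gam_mul (s := D.s a) (M := D.N a) (y := y a) (d := d) (f := f v i) (v := v) (hH a) hg' 1
          rwa [one_mul] at h6
        have e4 : ((T v).card : ℝ) = Nat.card Hs := by
          have h6 : T v = Finset.univ.filter fun g => g ∈ Hs := if_pos h1
          rw [h6, Nat.card_eq_fintype_card, Fintype.card_subtype]
        have e5 : Gd v = Cv v := if_pos h1
        rw [if_pos h1, e3, Finset.sum_const, nsmul_eq_mul, e4, e5]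
        ring
      · have e5 : Gd v = Dv v := if_neg h1
        have e6 : T v = Finset.univ := if_neg h1
        rw [if_neg h1, e5, e6, ← Finset.mul_sum]
        ring
    rw [h5, e2]
    linarith

end

end Pool.Agent.SQ
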